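import Mathlib

set_option autoImplicit false

/-! # Kakeya sets and lower Minkowski dimension: definitions -/

namespace Pool.Agent.H53.KD

open Set Metric MeasureTheory Filter Topology

/-- The Euclidean space of dimension `n`. -/
abbrev E (n : ℕ) := EuclideanSpace ℝ (Fin n)

/-- A Kakeya set: a compact set with a unit segment in every direction. -/
def IsKakeya {n : ℕ} (K : Set (E n)) : Prop :=
  IsCompact K ∧ ∀ ω : E n, ‖ω‖ = 1 → ∃ a : E n, ∀ t ∈ Icc (0:ℝ) 1, a + t • ω ∈ K

/-- `limsup_{δ → 0+} log |N_δ K| / log δ`, where `N_δ K` is the `δ`-neighbourhood and `|·|` the volume. -/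
noncomputable def codim {n : ℕ} (K : Set (E n)) : EReal :=
  limsup (fun δ : ℝ => ((Real.log (volume (thickening δ K)).toReal / Real.log δ : ℝ) : EReal)) (𝓝[>] 0)

/-- The lower Minkowski dimension `n - limsup_{δ → 0+} log |N_δ K| / log δ`. -/
noncomputable def lowerMinkowski {n : ℕ} (K : Set (E n)) : EReal := (n : EReal) - codim K

end Pool.Agent.H53.KD
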