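import Pool.Agent.H53.KD.Euc

set_option autoImplicit false
set_option linter.unusedVariables false
set_option linter.unusedSectionVars false

/-! # Lower Minkowski dimensions -/

namespace Pool.Agent.H53.KD

open Set Metric MeasureTheory Filter Topology

open scoped ENNReal

variable {l : ℕ}

lemma IsKakeya.nonempty {K : Set (E (l + 1))} (hK : IsKakeya K) : K.Nonempty := by
  obtain ⟨a, ha⟩ := hK.2 (EuclideanSpace.single 0 1) (by simp)
  exact ⟨_, ha 0 ⟨le_rfl, zero_le_one⟩⟩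

lemma volume_pos {K : Set (E (l + 1))} (hK : IsKakeya K) {δ : ℝ} (hδ : 0 < δ) : volume (thickening δ K) ≠ 0 := by
  have h1 : (thickening δ K).Nonempty := hK.nonempty.mono (self_subset_thickening hδ K)
  exact (isOpen_thickening.measure_pos volume h1).ne'

lemma volume_ne_top {n : ℕ} {K : Set (E n)} (hK : IsKakeya K) (δ : ℝ) : volume (thickening δ K) ≠ ∞ :=
  (hK.1.isBounded.thickening (δ := δ)).measure_lt_top.ne

/-- **Powers and padding for Kakeya sets, at given scales.** -/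
theorem kakeya_pow {k : ℕ} {K : Set (E (k + 1))} (hK : IsKakeya K) {δ : ℕ → ℝ} (hδ : ∀ j, 0 < δ j ∧ δ j ≤ 1)
    {w : ℕ → ℝ≥0∞} (hw0 : ∀ j, w j ≠ 0 ∧ w j ≠ ∞) (hw : ∑' j, (w j)⁻¹ ≠ ∞) (m r : ℕ) :
    ∃ K' : Set (E (m * k + r + 1)), IsKakeya K' ∧ ∃ C : ℝ≥0∞, C ≠ ∞ ∧
      ∀ j, volume (thickening (δ j) K') ≤ C * (w j * volume (thickening (δ j) K)) ^ m := by
  obtain ⟨C₁, hC₁0, hC₁, h1⟩ := cls_of_kakeya hK δ
  obtain ⟨C₂, hC₂0, hC₂, h2⟩ := cls_pow hδ h1
    (fun j => ⟨mul_ne_zero hC₁0 (volume_pos hK (hδ j).1), ENNReal.mul_ne_top hC₁ (volume_ne_top hK _)⟩) hw0 hw m r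
  obtain ⟨K', hK', h3⟩ := kakeya_of_cls h2
  refine ⟨K', hK', (m * k + r + 1 : ℕ) * (C₂ * C₁ ^ m), ENNReal.mul_ne_top (ENNReal.natCast_ne_top _)
    (ENNReal.mul_ne_top hC₂ (ENNReal.pow_ne_top hC₁)), fun j => (h3 j).trans (le_of_eq ?_)⟩
  ring

lemma codim_nonneg {n : ℕ} {K : Set (E n)} (hK : IsKakeya K) : 0 ≤ codim K := by
  rw [← EReal.ge_of_forall_gt_iff_ge]
  intro z hz
  have hz' : z < 0 := by exact_mod_cast hz
  obtain ⟨B, hB⟩ : ∃ B : ℝ, B = Real.log (max (volume (thickening 1 K)).toReal 1) := ⟨_, rfl⟩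
  have hB0 : 0 ≤ B := by rw [hB]; exact Real.log_nonneg (le_max_right _ _)
  refine le_limsup_of_frequently_le (Eventually.frequently ?_)
  have h1 : Tendsto (fun δ : ℝ => B / Real.log δ) (𝓝[>] 0) (𝓝 0) :=
    Tendsto.div_atBot tendsto_const_nhds Real.tendsto_log_nhdsGT_zero
  have h2 : ∀ᶠ δ : ℝ in 𝓝[>] 0, z < B / Real.log δ := h1.eventually_const_lt hz'
  have h3 : ∀ᶠ δ : ℝ in 𝓝[>] 0, δ ∈ Ioo (0:ℝ) 1 := Ioo_mem_nhdsGT zero_lt_one
  filter_upwards [h2, h3] with δ hδ1 hδ2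
  have hlog : Real.log δ < 0 := Real.log_neg hδ2.1 hδ2.2
  have h4 : Real.log (volume (thickening δ K)).toReal ≤ B := by
    rcases (ENNReal.toReal_nonneg (a := volume (thickening δ K))).lt_or_eq with h | h
    · rw [hB]
      refine Real.log_le_log h ((ENNReal.toReal_mono (volume_ne_top hK 1) ?_).trans (le_max_left _ _))
      exact measure_mono (thickening_mono hδ2.2.le K)
    · rw [← h, Real.log_zero]; exact hB0
  have h5 : B / Real.log δ ≤ Real.log (volume (thickening δ K)).toReal / Real.log δ :=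
    div_le_div_of_nonpos_of_le hlog.le h4
  exact EReal.coe_le_coe_iff.2 (hδ1.le.trans h5)

/-- **The codimension is multiplied.** -/
theorem exists_power {k : ℕ} {K : Set (E (k + 1))} (hK : IsKakeya K) (m r : ℕ) :
    ∃ K' : Set (E (m * k + r + 1)), IsKakeya K' ∧
      ∀ γ : ℝ, (γ : EReal) ≤ codim K → ((m * γ : ℝ) : EReal) ≤ codim K' := by
  have hbot : (⊥ : EReal) < codim K := lt_of_lt_of_le EReal.bot_lt_zero (codim_nonneg hK)
  obtain ⟨u, -, hu1, hu2⟩ := exists_seq_strictMono_tendsto' hbot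
  obtain ⟨γ, hγ⟩ : ∃ γ : ℕ → ℝ, ∀ n, (γ n : EReal) = u n :=
    ⟨fun n => (u n).toReal, fun n => EReal.coe_toReal ((hu1 n).2.trans_le le_top).ne (hu1 n).1.ne'⟩
  have hfreq : ∀ n, ∃ᶠ δ : ℝ in 𝓝[>] 0,
      ((γ n : ℝ) : EReal) < ((Real.log (volume (thickening δ K)).toReal / Real.log δ : ℝ) : EReal) := by
    intro n
    refine frequently_lt_of_lt_limsup ?_ ?_
    · isBoundedDefault
    · rw [hγ]; exact (hu1 n).2
  have hex : ∀ n : ℕ, ∃ δ : ℝ, (0 < δ ∧ δ < (2:ℝ)⁻¹ ^ ((n + 1) * (n + 1))) ∧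
      γ n < Real.log (volume (thickening δ K)).toReal / Real.log δ := by
    intro n
    have h1 : ∀ᶠ δ : ℝ in 𝓝[>] 0, δ ∈ Ioo (0:ℝ) ((2:ℝ)⁻¹ ^ ((n + 1) * (n + 1))) := Ioo_mem_nhdsGT (by positivity)
    obtain ⟨δ, hδ1, hδ2⟩ := ((hfreq n).and_eventually h1).exists
    exact ⟨δ, hδ2, by exact_mod_cast hδ1⟩
  choose δ hδ1 hδ2 using hex
  have hδ0 : ∀ j, 0 < δ j := fun j => (hδ1 j).1
  have hδhalf : ∀ j, δ j ≤ 1 / 2 := fun j => by
    refine (hδ1 j).2.le.trans ?_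
    calc (2:ℝ)⁻¹ ^ ((j + 1) * (j + 1)) ≤ (2:ℝ)⁻¹ ^ 1 :=
          pow_le_pow_of_le_one (by norm_num) (by norm_num) (by nlinarith)
      _ = 1 / 2 := by norm_num
  have hδle : ∀ j, δ j ≤ 1 := fun j => (hδhalf j).trans (by norm_num)
  have hlogneg : ∀ j, Real.log (δ j) < 0 := fun j => Real.log_neg (hδ0 j) ((hδhalf j).trans_lt (by norm_num))
  -- the weights
  obtain ⟨ω, hω⟩ : ∃ ω : ℕ → ℝ, ω = fun (j : ℕ) => δ j ^ (-(1 / ((j : ℝ) + 1))) := ⟨_, rfl⟩
  have hωpos : ∀ j, 0 < ω j := fun j => by rw [hω]; exact Real.rpow_pos_of_pos (hδ0 j) _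
  have hωlarge : ∀ j : ℕ, (2:ℝ) ^ (j + 1) ≤ ω j := by
    intro j
    rw [hω]
    have hj : (0:ℝ) < (j : ℝ) + 1 := by positivity
    have h1 : ((2:ℝ)⁻¹ ^ ((j + 1) * (j + 1))) ^ (-(1 / ((j : ℝ) + 1))) = (2:ℝ) ^ (j + 1) := by
      rw [← Real.rpow_natCast, ← Real.rpow_mul (by norm_num), Real.inv_rpow (by norm_num),
        ← Real.rpow_neg (by norm_num), ← Real.rpow_natCast]
      congr 1
      push_cast
      field_simp
    change (2:ℝ) ^ (j + 1) ≤ δ j ^ (-(1 / ((j : ℝ) + 1)))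
    rw [← h1]
    refine Real.rpow_le_rpow_of_nonpos (hδ0 j) (hδ1 j).2.le ?_
    have : 0 < 1 / ((j : ℝ) + 1) := by positivity
    linarith
  obtain ⟨w, hw⟩ : ∃ w : ℕ → ℝ≥0∞, w = fun j => ENNReal.ofReal (ω j) := ⟨_, rfl⟩
  have hw0 : ∀ j, w j ≠ 0 ∧ w j ≠ ∞ := fun j => by
    rw [hw]
    exact ⟨(ENNReal.ofReal_pos.2 (hωpos j)).ne', ENNReal.ofReal_ne_top⟩
  have hwsum : ∑' j, (w j)⁻¹ ≠ ∞ := by
    have h1 : ∀ j, (w j)⁻¹ ≤ ENNReal.ofReal ((1 / 2) ^ (j + 1)) := by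
      intro j
      rw [hw]
      change (ENNReal.ofReal (ω j))⁻¹ ≤ _
      rw [← ENNReal.ofReal_inv_of_pos (hωpos j)]
      refine ENNReal.ofReal_le_ofReal ?_
      rw [one_div, inv_pow]
      exact inv_anti₀ (by positivity) (hωlarge j)
    have h2 : Summable fun j : ℕ => ((1:ℝ) / 2) ^ (j + 1) :=
      (summable_nat_add_iff 1).2 (summable_geometric_of_lt_one (by norm_num) (by norm_num))
    refine ne_top_of_le_ne_top ?_ (ENNReal.tsum_le_tsum h1)
    rw [← ENNReal.ofReal_tsum_of_nonneg (fun j => by positivity) h2]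
    exact ENNReal.ofReal_ne_top
  obtain ⟨K', hK', C, hC, hvol⟩ := kakeya_pow hK (fun j => ⟨hδ0 j, hδle j⟩) hw0 hwsum m r
  refine ⟨K', hK', fun γ₀ hγ₀ => ?_⟩
  obtain ⟨c, hc⟩ : ∃ c : ℝ, c = C.toReal + 1 := ⟨_, rfl⟩
  have hc1 : 1 ≤ c := by rw [hc]; linarith [ENNReal.toReal_nonneg (a := C)]
  -- the ratio at the scales `δ j`
  have hratio : ∀ j : ℕ, m * (γ j - 1 / ((j : ℝ) + 1)) + Real.log c / Real.log (δ j) ≤
      Real.log (volume (thickening (δ j) K')).toReal / Real.log (δ j) := by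
    intro j
    have hv0 : 0 < (volume (thickening (δ j) K)).toReal :=
      ENNReal.toReal_pos (volume_pos hK (hδ0 j)) (volume_ne_top hK _)
    have hv1 : 0 < (volume (thickening (δ j) K')).toReal :=
      ENNReal.toReal_pos (volume_pos hK' (hδ0 j)) (volume_ne_top hK' _)
    have h1 : (volume (thickening (δ j) K')).toReal ≤ c * (ω j * (volume (thickening (δ j) K)).toReal) ^ m := by
      have h2 := ENNReal.toReal_mono (ENNReal.mul_ne_top hC (ENNReal.pow_ne_top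
        (ENNReal.mul_ne_top (hw0 j).2 (volume_ne_top hK _)))) (hvol j)
      rw [ENNReal.toReal_mul, ENNReal.toReal_pow, ENNReal.toReal_mul] at h2
      have h3 : (w j).toReal = ω j := by rw [hw]; exact ENNReal.toReal_ofReal (hωpos j).le
      rw [h3] at h2
      refine h2.trans (mul_le_mul_of_nonneg_right (by rw [hc]; linarith) ?_)
      exact pow_nonneg (mul_nonneg (hωpos j).le hv0.le) _
    have h4 := Real.log_le_log hv1 h1
    rw [Real.log_mul (by linarith) (pow_ne_zero _ (mul_pos (hωpos j) hv0).ne'), Real.log_pow,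
      Real.log_mul (hωpos j).ne' hv0.ne'] at h4
    have h5 : Real.log (ω j) = -(1 / ((j : ℝ) + 1)) * Real.log (δ j) := by
      rw [hω]; exact Real.log_rpow (hδ0 j) _
    have h6 : Real.log (volume (thickening (δ j) K)).toReal < γ j * Real.log (δ j) := by
      have := hδ2 j
      rwa [lt_div_iff_of_neg (hlogneg j)] at this
    rw [h5] at h4
    rw [← sub_nonneg]
    have h7 : Real.log (volume (thickening (δ j) K')).toReal / Real.log (δ j) -
        (m * (γ j - 1 / ((j : ℝ) + 1)) + Real.log c / Real.log (δ j)) =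
        (Real.log (volume (thickening (δ j) K')).toReal - (m * (γ j - 1 / ((j : ℝ) + 1)) * Real.log (δ j) + Real.log c)) /
          Real.log (δ j) := by
      have := (hlogneg j).ne
      field_simp
    rw [h7]
    refine div_nonneg_of_nonpos ?_ (hlogneg j).le
    have h8 : (m : ℝ) * (-(1 / ((j : ℝ) + 1)) * Real.log (δ j) + Real.log (volume (thickening (δ j) K)).toReal) ≤
        m * (-(1 / ((j : ℝ) + 1)) * Real.log (δ j) + γ j * Real.log (δ j)) :=
      mul_le_mul_of_nonneg_left (by linarith) (Nat.cast_nonneg m)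
    nlinarith
  have hδlim : Tendsto δ atTop (𝓝[>] 0) := by
    refine tendsto_nhdsWithin_iff.2 ⟨?_, Eventually.of_forall fun j => hδ0 j⟩
    refine squeeze_zero (fun j => (hδ0 j).le) (fun j => (?_ : δ j ≤ (2:ℝ)⁻¹ ^ j))
      (tendsto_pow_atTop_nhds_zero_of_lt_one (by norm_num) (by norm_num))
    refine (hδ1 j).2.le.trans (pow_le_pow_of_le_one (by norm_num) (by norm_num) (by nlinarith))
  rw [← EReal.ge_of_forall_gt_iff_ge]
  intro z hz
  have hz' : z < m * γ₀ := by exact_mod_cast hz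
  refine le_limsup_of_frequently_le (hδlim.frequently (Eventually.frequently ?_))
  obtain ⟨ε, hε⟩ : ∃ ε : ℝ, ε = (m * γ₀ - z) / (2 * m + 1) := ⟨_, rfl⟩
  have hε0 : 0 < ε := by rw [hε]; exact div_pos (by linarith) (by positivity)
  have hε1 : ε * (2 * m + 1) = m * γ₀ - z := by rw [hε]; field_simp
  have h1 : ∀ᶠ j : ℕ in atTop, γ₀ - ε < γ j := by
    have h2 : ((γ₀ - ε : ℝ) : EReal) < codim K := lt_of_lt_of_le (by exact_mod_cast (by linarith)) hγ₀
    filter_upwards [hu2.eventually_const_lt h2] with j hj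
    rw [← hγ] at hj
    exact_mod_cast hj
  have h3 : ∀ᶠ j : ℕ in atTop, 1 / ((j : ℝ) + 1) < ε :=
    tendsto_one_div_add_atTop_nhds_zero_nat.eventually_lt_const hε0
  have h4 : ∀ᶠ j : ℕ in atTop, -ε < Real.log c / Real.log (δ j) := by
    have h5 : Tendsto (fun j => Real.log c / Real.log (δ j)) atTop (𝓝 0) :=
      Tendsto.div_atBot tendsto_const_nhds (Real.tendsto_log_nhdsGT_zero.comp hδlim)
    exact h5.eventually_const_lt (by linarith)
  filter_upwards [h1, h3, h4] with j a1 a2 a3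
  refine EReal.coe_le_coe_iff.2 (le_trans ?_ (hratio j))
  have h6 : (m : ℝ) * (γ₀ - 2 * ε) ≤ m * (γ j - 1 / ((j : ℝ) + 1)) :=
    mul_le_mul_of_nonneg_left (by linarith) (Nat.cast_nonneg m)
  nlinarith

lemma sub_le_coe_iff (n d : ℝ) (x : EReal) : (n : EReal) - x ≤ d ↔ ((n - d : ℝ) : EReal) ≤ x := by
  induction x using EReal.rec with
  | bot =>
    constructor
    · intro h
      exfalso
      simp at h
    · intro h
      exact absurd (le_bot_iff.1 h) (EReal.coe_ne_bot _)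
  | top => simp
  | coe x =>
    norm_cast
    constructor <;> intro h <;> linarith

lemma lowerMinkowski_le_iff {n : ℕ} (K : Set (E n)) (d : ℝ) :
    lowerMinkowski K ≤ d ↔ (((n : ℝ) - d : ℝ) : EReal) ≤ codim K := by
  unfold lowerMinkowski
  have h : ((n : ℕ) : EReal) = ((n : ℝ) : EReal) := by norm_cast
  rw [h]
  exact sub_le_coe_iff _ _ _

lemma lowerMinkowski_le {n : ℕ} {K : Set (E n)} (hK : IsKakeya K) : lowerMinkowski K ≤ n := by
  have h : ((n : ℕ) : EReal) = ((n : ℝ) : EReal) := by norm_cast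
  rw [h, lowerMinkowski_le_iff]
  simpa using codim_nonneg hK

end Pool.Agent.H53.KD
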