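import Mathlib

set_option autoImplicit false
set_option linter.unusedVariables false
set_option linter.unusedSectionVars false

/-! # Fibre products, over the height, of sets containing lines with all slopes of a cube -/

namespace Pool.Agent.H53.KD

open Set Metric MeasureTheory Filter Topology

open scoped ENNReal Pointwise

/-- compact sets of `ℝ × ℝ^ι` which contain, over the heights `[0, 1]`, a line of every slope of the cube `[-1, 1]^ι` -/
def Prep (ι : Type) [Fintype ι] (K : Set (ℝ × (ι → ℝ))) : Prop :=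
  IsCompact K ∧ ∀ v : ι → ℝ, (∀ i, |v i| ≤ 1) → ∃ a : ι → ℝ, ∀ t ∈ Icc (0:ℝ) 1, (t, a + t • v) ∈ K

/-- there is such a set whose `δ j`-neighbourhoods have volumes at most `U j` -/
def Cls (ι : Type) [Fintype ι] (δ : ℕ → ℝ) (U : ℕ → ℝ≥0∞) : Prop :=
  ∃ K : Set (ℝ × (ι → ℝ)), Prep ι K ∧ ∀ j, volume (thickening (δ j) K) ≤ U j

lemma Cls.mono {ι : Type} [Fintype ι] {δ : ℕ → ℝ} {U V : ℕ → ℝ≥0∞} (h : Cls ι δ U) (hUV : ∀ j, U j ≤ V j) :
    Cls ι δ V := by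
  obtain ⟨K, h1, h2⟩ := h
  exact ⟨K, h1, fun j => (h2 j).trans (hUV j)⟩

lemma Prep.nonempty {ι : Type} [Fintype ι] {K : Set (ℝ × (ι → ℝ))} (h : Prep ι K) : K.Nonempty := by
  obtain ⟨a, ha⟩ := h.2 0 (fun i => by simp)
  exact ⟨_, ha 0 ⟨le_rfl, zero_le_one⟩⟩

/-- the box -/
lemma cls_box (ι : Type) [Fintype ι] (δ : ℕ → ℝ) (hδ : ∀ j, δ j ≤ 1) :
    ∃ C : ℝ≥0∞, C ≠ ∞ ∧ Cls ι δ (fun _ => C) := by
  refine ⟨volume (thickening 1 (Icc (0:ℝ) 1 ×ˢ Icc (-1 : ι → ℝ) 1)), ?_, Icc (0:ℝ) 1 ×ˢ Icc (-1 : ι → ℝ) 1,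
    ⟨isCompact_Icc.prod isCompact_Icc, ?_⟩, ?_⟩
  · have hb : Bornology.IsBounded (Icc (0:ℝ) 1 ×ˢ Icc (-1 : ι → ℝ) 1) :=
      (isCompact_Icc.prod isCompact_Icc).isBounded
    exact (hb.thickening (δ := 1)).measure_lt_top.ne
  · intro v hv
    refine ⟨0, fun t ht => ⟨ht, ?_⟩⟩
    have h1 : ∀ i, |t * v i| ≤ 1 := fun i => by
      rw [abs_mul, abs_of_nonneg ht.1]
      exact mul_le_one₀ ht.2 (abs_nonneg _) (hv i)
    constructor
    · intro i
      have := (abs_le.1 (h1 i)).1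
      simpa using this
    · intro i
      have := (abs_le.1 (h1 i)).2
      simpa using this
  · intro j
    exact measure_mono (thickening_mono (hδ j) _)

section Fibre

variable {ι ι' : Type} [Fintype ι] [Fintype ι']

/-- the fibre product of two sets with a shift of the second one -/
def fib (τ : ℝ) (A : Set (ℝ × (ι → ℝ))) (B : Set (ℝ × (ι' → ℝ))) : Set (ℝ × (ι ⊕ ι' → ℝ)) :=
  {p | (p.1, fun i => p.2 (Sum.inl i)) ∈ A ∧ (p.1 + τ, fun i => p.2 (Sum.inr i)) ∈ B}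

lemma cont_inl : Continuous (fun p : ℝ × (ι ⊕ ι' → ℝ) => (p.1, fun i : ι => p.2 (Sum.inl i))) :=
  continuous_fst.prodMk (continuous_pi fun i => (continuous_apply _).comp continuous_snd)

lemma cont_inr (τ : ℝ) : Continuous (fun p : ℝ × (ι ⊕ ι' → ℝ) => (p.1 + τ, fun i : ι' => p.2 (Sum.inr i))) :=
  (continuous_fst.add continuous_const).prodMk (continuous_pi fun i => (continuous_apply _).comp continuous_snd)

lemma isClosed_fib (τ : ℝ) {A : Set (ℝ × (ι → ℝ))} {B : Set (ℝ × (ι' → ℝ))} (hA : IsClosed A) (hB : IsClosed B) :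
    IsClosed (fib τ A B) :=
  (hA.preimage cont_inl).inter (hB.preimage (cont_inr τ))

lemma isOpen_fib (τ : ℝ) {A : Set (ℝ × (ι → ℝ))} {B : Set (ℝ × (ι' → ℝ))} (hA : IsOpen A) (hB : IsOpen B) :
    IsOpen (fib τ A B) :=
  (hA.preimage cont_inl).inter (hB.preimage (cont_inr τ))

lemma isCompact_fib (τ : ℝ) {A : Set (ℝ × (ι → ℝ))} {B : Set (ℝ × (ι' → ℝ))} (hA : IsCompact A) (hB : IsCompact B) :
    IsCompact (fib τ A B) := by
  refine isCompact_of_isClosed_isBounded (isClosed_fib τ hA.isClosed hB.isClosed) ?_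
  obtain ⟨R, hR⟩ := hA.isBounded.subset_closedBall 0
  obtain ⟨S, hS⟩ := hB.isBounded.subset_closedBall 0
  refine (isBounded_closedBall (x := (0 : ℝ × (ι ⊕ ι' → ℝ))) (r := max R S)).subset ?_
  rintro p ⟨h1, h2⟩
  have h1' := hR h1
  have h2' := hS h2
  rw [mem_closedBall, dist_zero_right] at h1' h2' ⊢
  rw [Prod.norm_def] at h1' h2' ⊢
  have hR0 : 0 ≤ max R S := le_max_of_le_left ((norm_nonneg _).trans ((le_max_left _ _).trans h1'))
  refine max_le (((le_max_left _ _).trans h1').trans (le_max_left _ _)) ?_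
  refine (pi_norm_le_iff_of_nonneg hR0).2 ?_
  rintro (i | i)
  · exact ((norm_le_pi_norm (fun i : ι => p.2 (Sum.inl i)) i).trans ((le_max_right _ _).trans h1')).trans (le_max_left _ _)
  · exact ((norm_le_pi_norm (fun i : ι' => p.2 (Sum.inr i)) i).trans ((le_max_right _ _).trans h2')).trans (le_max_right _ _)

lemma dist_inl (p q : ℝ × (ι ⊕ ι' → ℝ)) :
    dist (p.1, fun i : ι => p.2 (Sum.inl i)) (q.1, fun i : ι => q.2 (Sum.inl i)) ≤ dist p q := by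
  rw [Prod.dist_eq, Prod.dist_eq]
  refine max_le_max le_rfl ?_
  exact (dist_pi_le_iff dist_nonneg).2 fun i => dist_le_pi_dist p.2 q.2 (Sum.inl i)

lemma dist_inr (τ : ℝ) (p q : ℝ × (ι ⊕ ι' → ℝ)) :
    dist (p.1 + τ, fun i : ι' => p.2 (Sum.inr i)) (q.1 + τ, fun i : ι' => q.2 (Sum.inr i)) ≤ dist p q := by
  rw [Prod.dist_eq, Prod.dist_eq]
  refine max_le_max ?_ ?_
  · simp
  · exact (dist_pi_le_iff dist_nonneg).2 fun i => dist_le_pi_dist p.2 q.2 (Sum.inr i)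

lemma thickening_fib (τ δ : ℝ) (A : Set (ℝ × (ι → ℝ))) (B : Set (ℝ × (ι' → ℝ))) :
    thickening δ (fib τ A B) ⊆ fib τ (thickening δ A) (thickening δ B) := by
  intro p hp
  rw [mem_thickening_iff] at hp
  obtain ⟨q, ⟨h1, h2⟩, hq⟩ := hp
  exact ⟨mem_thickening_iff.2 ⟨_, h1, (dist_inl p q).trans_lt hq⟩,
    mem_thickening_iff.2 ⟨_, h2, (dist_inr τ p q).trans_lt hq⟩⟩

/-- the volume of a fibre product, by slices -/
lemma volume_fib (τ : ℝ) {A : Set (ℝ × (ι → ℝ))} {B : Set (ℝ × (ι' → ℝ))} (hA : IsOpen A) (hB : IsOpen B) :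
    volume (fib τ A B) = ∫⁻ t : ℝ, volume (Prod.mk t ⁻¹' A) * volume (Prod.mk (t + τ) ⁻¹' B) := by
  rw [Measure.volume_eq_prod, Measure.prod_apply (isOpen_fib τ hA hB).measurableSet]
  refine lintegral_congr fun t => ?_
  have h := volume_measurePreserving_sumPiEquivProdPi (fun _ : ι ⊕ ι' => ℝ)
  have h1 : Prod.mk t ⁻¹' (fib τ A B) = (MeasurableEquiv.sumPiEquivProdPi (fun _ : ι ⊕ ι' => ℝ)) ⁻¹'
      ((Prod.mk t ⁻¹' A) ×ˢ (Prod.mk (t + τ) ⁻¹' B)) := rfl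
  rw [h1, h.measure_preimage_equiv, Measure.volume_eq_prod, Measure.prod_prod]

lemma measurable_section {A : Set (ℝ × (ι → ℝ))} (hA : IsOpen A) :
    Measurable fun t : ℝ => volume (Prod.mk t ⁻¹' A) :=
  measurable_measure_prodMk_left hA.measurableSet

lemma measurable_volume_fib {A : Set (ℝ × (ι → ℝ))} {B : Set (ℝ × (ι' → ℝ))} (hA : IsOpen A) (hB : IsOpen B) :
    Measurable fun τ : ℝ => volume (fib τ A B) := by
  have h : IsOpen {q : ℝ × (ℝ × (ι ⊕ ι' → ℝ)) | q.2 ∈ fib q.1 A B} := by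
    have h1 : IsOpen {q : ℝ × (ℝ × (ι ⊕ ι' → ℝ)) | (q.2.1, fun i => q.2.2 (Sum.inl i)) ∈ A} :=
      hA.preimage (cont_inl.comp continuous_snd)
    have h2 : IsOpen {q : ℝ × (ℝ × (ι ⊕ ι' → ℝ)) | (q.2.1 + q.1, fun i => q.2.2 (Sum.inr i)) ∈ B} := by
      refine hB.preimage ?_
      exact ((continuous_fst.comp continuous_snd).add continuous_fst).prodMk
        (continuous_pi fun i => (continuous_apply _).comp (continuous_snd.comp continuous_snd))
    exact h1.inter h2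
  exact measurable_measure_prodMk_left h.measurableSet

lemma lintegral_section {A : Set (ℝ × (ι → ℝ))} (hA : IsOpen A) :
    ∫⁻ t : ℝ, volume (Prod.mk t ⁻¹' A) = volume A := by
  rw [Measure.volume_eq_prod, Measure.prod_apply hA.measurableSet]

/-- average over the shifts -/
lemma lintegral_volume_fib {A : Set (ℝ × (ι → ℝ))} {B : Set (ℝ × (ι' → ℝ))} (hA : IsOpen A) (hB : IsOpen B) :
    ∫⁻ τ : ℝ, volume (fib τ A B) = volume A * volume B := by
  have hmA := measurable_section hA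
  have hmB := measurable_section hB
  simp_rw [volume_fib _ hA hB]
  rw [lintegral_lintegral_swap]
  · have h1 : ∀ t : ℝ, ∫⁻ τ : ℝ, volume (Prod.mk t ⁻¹' A) * volume (Prod.mk (t + τ) ⁻¹' B) =
        volume (Prod.mk t ⁻¹' A) * volume B := by
      intro t
      rw [lintegral_const_mul]
      · congr 1
        rw [lintegral_add_left_eq_self (fun s => volume (Prod.mk s ⁻¹' B)) t, lintegral_section hB]
      · exact hmB.comp (measurable_const_add t)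
    simp_rw [h1]
    rw [lintegral_mul_const _ hmA, lintegral_section hA]
  · refine Measurable.aemeasurable ?_
    exact (hmA.comp measurable_snd).mul (hmB.comp (measurable_snd.add measurable_fst))

/-- one shift which is good for all scales -/
lemma exists_shift (A : ℕ → Set (ℝ × (ι → ℝ))) (B : ℕ → Set (ℝ × (ι' → ℝ))) (hA : ∀ j, IsOpen (A j))
    (hB : ∀ j, IsOpen (B j)) (U V w : ℕ → ℝ≥0∞) (hU : ∀ j, volume (A j) ≤ U j) (hV : ∀ j, volume (B j) ≤ V j)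
    (hU0 : ∀ j, U j ≠ 0 ∧ U j ≠ ∞) (hV0 : ∀ j, V j ≠ 0 ∧ V j ≠ ∞) (hw0 : ∀ j, w j ≠ 0 ∧ w j ≠ ∞)
    (hw : ∑' j, (w j)⁻¹ ≠ ∞) :
    ∃ τ ∈ Icc (0:ℝ) (1/2), ∃ C : ℝ≥0∞, C ≠ ∞ ∧ ∀ j, volume (fib τ (A j) (B j)) ≤ C * (w j * U j * V j) := by
  obtain ⟨H, hH⟩ : ∃ H : ℝ → ℝ≥0∞, H = fun τ => ∑' j, volume (fib τ (A j) (B j)) * (w j * U j * V j)⁻¹ := ⟨_, rfl⟩
  have hm : ∀ j, Measurable fun τ : ℝ => volume (fib τ (A j) (B j)) * (w j * U j * V j)⁻¹ := fun j =>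
    (measurable_volume_fib (hA j) (hB j)).mul_const _
  have hHm : Measurable H := by
    rw [hH]
    exact Measurable.tsum hm
  have h1 : ∫⁻ τ : ℝ, H τ ≤ ∑' j, (w j)⁻¹ := by
    rw [hH, lintegral_tsum fun j => (hm j).aemeasurable]
    refine ENNReal.tsum_le_tsum fun j => ?_
    rw [lintegral_mul_const _ (measurable_volume_fib (hA j) (hB j)), lintegral_volume_fib (hA j) (hB j)]
    have h2 : (w j * U j * V j)⁻¹ = (w j)⁻¹ * (U j * V j)⁻¹ := by
      rw [mul_assoc, ENNReal.mul_inv (Or.inl (hw0 j).1) (Or.inl (hw0 j).2)]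
    rw [h2]
    calc volume (A j) * volume (B j) * ((w j)⁻¹ * (U j * V j)⁻¹)
        ≤ U j * V j * ((w j)⁻¹ * (U j * V j)⁻¹) := by
          gcongr
          · exact hU j
          · exact hV j
      _ = (w j)⁻¹ * (U j * V j * (U j * V j)⁻¹) := by ring
      _ = (w j)⁻¹ := by
          rw [ENNReal.mul_inv_cancel (mul_ne_zero (hU0 j).1 (hV0 j).1)
            (ENNReal.mul_ne_top (hU0 j).2 (hV0 j).2), mul_one]
  have h3 : ∀ᵐ τ : ℝ, H τ < ∞ := ae_lt_top hHm (h1.trans_lt hw.lt_top).ne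
  have h4 : ∀ᵐ τ ∂(volume.restrict (Icc (0:ℝ) (1/2))), H τ < ∞ := ae_restrict_of_ae h3
  have h5 : (volume.restrict (Icc (0:ℝ) (1/2))) ≠ 0 := by
    intro h
    have := congrArg (fun μ : Measure ℝ => μ univ) h
    simp at this
  obtain ⟨τ, hτ1, hτ2⟩ : ∃ τ, H τ < ∞ ∧ τ ∈ Icc (0:ℝ) (1/2) := by
    have h6 := (h4.and (ae_restrict_mem measurableSet_Icc))
    have : NeBot (ae (volume.restrict (Icc (0:ℝ) (1/2)))) := ae_neBot.2 h5
    exact h6.exists
  refine ⟨τ, hτ2, H τ, hτ1.ne, fun j => ?_⟩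
  have h7 : volume (fib τ (A j) (B j)) * (w j * U j * V j)⁻¹ ≤ H τ := by
    rw [hH]
    exact ENNReal.le_tsum j
  have h8 : w j * U j * V j ≠ 0 := mul_ne_zero (mul_ne_zero (hw0 j).1 (hU0 j).1) (hV0 j).1
  have h9 : w j * U j * V j ≠ ∞ := ENNReal.mul_ne_top (ENNReal.mul_ne_top (hw0 j).2 (hU0 j).2) (hV0 j).2
  rw [← div_eq_mul_inv] at h7
  exact (ENNReal.div_le_iff h8 h9).1 h7

lemma thickening_two_smul (δ : ℝ) (hδ : 0 < δ) (S : Set (ℝ × (ι → ℝ))) :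
    thickening δ ((2:ℝ) • S) ⊆ (2:ℝ) • thickening δ S := by
  intro p hp
  rw [mem_thickening_iff] at hp
  obtain ⟨q, hq, hpq⟩ := hp
  obtain ⟨r, hr, rfl⟩ := hq
  rw [mem_smul_set_iff_inv_smul_mem₀ (two_ne_zero)]
  refine mem_thickening_iff.2 ⟨r, hr, ?_⟩
  have h1 : p = (2:ℝ) • ((2:ℝ)⁻¹ • p) := by rw [smul_smul]; norm_num
  have h2 : dist p ((2:ℝ) • r) = 2 * dist ((2:ℝ)⁻¹ • p) r := by
    conv_lhs => rw [h1]
    rw [dist_smul₀]; norm_num
  change dist p ((2:ℝ) • r) < δ at hpq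
  rw [h2] at hpq
  have h3 : 0 ≤ dist ((2:ℝ)⁻¹ • p) r := dist_nonneg
  linarith

lemma haar_inst (κ : Type) [Fintype κ] : (volume : Measure (ℝ × (κ → ℝ))).IsAddHaarMeasure := by
  have h : ((volume : Measure ℝ).prod (volume : Measure (κ → ℝ))).IsAddHaarMeasure := inferInstance
  exact h

/-- **Fibre products of the classes.** -/
theorem cls_fib {δ : ℕ → ℝ} (hδ : ∀ j, 0 < δ j) {U V w : ℕ → ℝ≥0∞} (hA : Cls ι δ U) (hB : Cls ι' δ V)
    (hU0 : ∀ j, U j ≠ 0 ∧ U j ≠ ∞) (hV0 : ∀ j, V j ≠ 0 ∧ V j ≠ ∞) (hw0 : ∀ j, w j ≠ 0 ∧ w j ≠ ∞)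
    (hw : ∑' j, (w j)⁻¹ ≠ ∞) :
    ∃ C : ℝ≥0∞, C ≠ ∞ ∧ Cls (ι ⊕ ι') δ (fun j => C * (w j * U j * V j)) := by
  obtain ⟨K₁, hK₁, hU⟩ := hA
  obtain ⟨K₂, hK₂, hV⟩ := hB
  obtain ⟨τ, hτ, C, hC, hτC⟩ := exists_shift (fun j => thickening (δ j) K₁) (fun j => thickening (δ j) K₂)
    (fun j => isOpen_thickening) (fun j => isOpen_thickening) U V w hU hV hU0 hV0 hw0 hw
  refine ⟨ENNReal.ofReal |(2:ℝ) ^ Module.finrank ℝ (ℝ × (ι ⊕ ι' → ℝ))| * C,
    ENNReal.mul_ne_top ENNReal.ofReal_ne_top hC, (2:ℝ) • fib τ K₁ K₂, ⟨?_, ?_⟩, ?_⟩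
  · exact (isCompact_fib τ hK₁.1 hK₂.1).smul 2
  · intro v hv
    obtain ⟨a, ha⟩ := hK₁.2 (fun i => v (Sum.inl i)) (fun i => hv _)
    obtain ⟨b, hb⟩ := hK₂.2 (fun i => v (Sum.inr i)) (fun i => hv _)
    refine ⟨Sum.elim (fun i => 2 * a i) (fun i => 2 * (b i + τ * v (Sum.inr i))), fun t ht => ?_⟩
    rw [mem_smul_set_iff_inv_smul_mem₀ (two_ne_zero)]
    have h1 := ha (t / 2) ⟨by linarith [ht.1], by linarith [ht.2]⟩
    have h2 := hb (t / 2 + τ) ⟨by linarith [ht.1, hτ.1], by linarith [ht.2, hτ.2]⟩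
    refine ⟨?_, ?_⟩
    · convert h1 using 2
      · simp; ring
      · funext i
        simp; ring
    · convert h2 using 2
      · simp; ring
      · funext i
        simp; ring
  · intro j
    calc volume (thickening (δ j) ((2:ℝ) • fib τ K₁ K₂))
        ≤ volume ((2:ℝ) • fib τ (thickening (δ j) K₁) (thickening (δ j) K₂)) := by
          refine measure_mono ((thickening_two_smul (δ j) (hδ j) _).trans ?_)
          exact smul_set_mono (thickening_fib τ (δ j) K₁ K₂)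
      _ = ENNReal.ofReal |(2:ℝ) ^ Module.finrank ℝ (ℝ × (ι ⊕ ι' → ℝ))| *
            volume (fib τ (thickening (δ j) K₁) (thickening (δ j) K₂)) := by
          have := haar_inst (ι ⊕ ι')
          exact Measure.addHaar_smul volume 2 _
      _ ≤ ENNReal.ofReal |(2:ℝ) ^ Module.finrank ℝ (ℝ × (ι ⊕ ι' → ℝ))| * (C * (w j * U j * V j)) := by
          gcongr
          exact hτC j
      _ = _ := by ring

end Fibre

/-- reindexing -/
theorem cls_congr {ι ι' : Type} [Fintype ι] [Fintype ι'] (e : ι ≃ ι') {δ : ℕ → ℝ} {U : ℕ → ℝ≥0∞}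
    (h : Cls ι δ U) : Cls ι' δ U := by
  obtain ⟨K, hK, hU⟩ := h
  let F : ℝ × (ι' → ℝ) ≃ₜ ℝ × (ι → ℝ) :=
    (Homeomorph.refl ℝ).prodCongr (Homeomorph.piCongrLeft (Y := fun _ => ℝ) e).symm
  have hF : ∀ p, F p = (p.1, fun i => p.2 (e i)) := by
    intro p
    rfl
  have hd : ∀ p q, dist (F p) (F q) ≤ dist p q := by
    intro p q
    rw [hF, hF, Prod.dist_eq, Prod.dist_eq]
    exact max_le_max le_rfl ((dist_pi_le_iff dist_nonneg).2 fun i => dist_le_pi_dist p.2 q.2 (e i))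
  have hm : MeasurePreserving F volume volume := by
    have h1 : MeasurePreserving (fun p : ℝ × (ι' → ℝ) => (p.1, (MeasurableEquiv.piCongrLeft (fun _ => ℝ) e).symm p.2))
        (volume.prod volume) (volume.prod volume) :=
      (MeasurePreserving.id volume).prod (volume_measurePreserving_piCongrLeft (fun _ : ι' => ℝ) e).symm
    exact h1
  refine ⟨F ⁻¹' K, ⟨F.isCompact_preimage.2 hK.1, ?_⟩, ?_⟩
  · intro v hv
    obtain ⟨a, ha⟩ := hK.2 (fun i => v (e i)) (fun i => hv _)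
    refine ⟨fun i' => a (e.symm i'), fun t ht => ?_⟩
    rw [mem_preimage, hF]
    have := ha t ht
    convert this using 2
    funext i
    simp
  · intro j
    refine le_trans ?_ (hU j)
    rw [← hm.measure_preimage (isOpen_thickening.measurableSet.nullMeasurableSet)]
    refine measure_mono ?_
    intro p hp
    rw [mem_thickening_iff] at hp
    obtain ⟨q, hq, hpq⟩ := hp
    exact mem_thickening_iff.2 ⟨F q, hq, (hd p q).trans_lt hpq⟩

/-- **Powers and padding.** -/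
theorem cls_pow {k : ℕ} {δ : ℕ → ℝ} (hδ : ∀ j, 0 < δ j ∧ δ j ≤ 1) {U w : ℕ → ℝ≥0∞} (hU : Cls (Fin k) δ U)
    (hU0 : ∀ j, U j ≠ 0 ∧ U j ≠ ∞) (hw0 : ∀ j, w j ≠ 0 ∧ w j ≠ ∞) (hw : ∑' j, (w j)⁻¹ ≠ ∞) (m r : ℕ) :
    ∃ C : ℝ≥0∞, C ≠ 0 ∧ C ≠ ∞ ∧ Cls (Fin (m * k + r)) δ (fun j => C * (w j * U j) ^ m) := by
  induction m with
  | zero =>
    obtain ⟨C, hC, h⟩ := cls_box (Fin r) δ (fun j => (hδ j).2)
    refine ⟨C + 1, by simp, by simp [hC], ?_⟩
    have h' := cls_congr (finCongr (by omega : r = 0 * k + r)) h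
    refine h'.mono fun j => ?_
    simp
  | succ m ih =>
    obtain ⟨C, hC0, hC, h⟩ := ih
    have hwU : ∀ j, (w j * U j) ^ m ≠ 0 ∧ (w j * U j) ^ m ≠ ∞ := fun j =>
      ⟨pow_ne_zero _ (mul_ne_zero (hw0 j).1 (hU0 j).1), ENNReal.pow_ne_top (ENNReal.mul_ne_top (hw0 j).2 (hU0 j).2)⟩
    obtain ⟨C', hC', h'⟩ := cls_fib (fun j => (hδ j).1) h hU
      (fun j => ⟨mul_ne_zero hC0 (hwU j).1, ENNReal.mul_ne_top hC (hwU j).2⟩) hU0 hw0 hw
    refine ⟨C' * C + 1, by simp, by simp [ENNReal.mul_ne_top hC' hC], ?_⟩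
    have h'' := cls_congr ((finSumFinEquiv).trans (finCongr (by ring : (m * k + r) + k = (m + 1) * k + r))) h'
    refine h''.mono fun j => ?_
    calc C' * (w j * (C * (w j * U j) ^ m) * U j) = C' * C * (w j * U j) ^ (m + 1) := by ring
      _ ≤ (C' * C + 1) * (w j * U j) ^ (m + 1) := by
          gcongr
          exact le_self_add

end Pool.Agent.H53.KD
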