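import Pool.Agent.H53.KD.Defs
import Pool.Agent.H53.KD.Fib

set_option autoImplicit false
set_option linter.unusedVariables false
set_option linter.unusedSectionVars false

/-! # From Euclidean spaces to the product form, and back -/

namespace Pool.Agent.H53.KD

open Set Metric MeasureTheory Filter Topology

open scoped ENNReal Pointwise

variable {l : ℕ}

/-- splitting off the coordinate `i` -/
noncomputable def G (i : Fin (l + 1)) (x : E (l + 1)) : ℝ × (Fin l → ℝ) := (x i, fun j => x (i.succAbove j))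

noncomputable def g (i : Fin (l + 1)) (p : ℝ × (Fin l → ℝ)) : E (l + 1) := WithLp.toLp 2 (i.insertNth p.1 p.2)

lemma G_g (i : Fin (l + 1)) (p : ℝ × (Fin l → ℝ)) : G i (g i p) = p := by
  simp [G, g]

lemma g_G (i : Fin (l + 1)) (x : E (l + 1)) : g i (G i x) = x := by
  ext j
  rcases Fin.eq_self_or_eq_succAbove i j with h | ⟨j', rfl⟩
  · subst h; simp [G, g]
  · simp [G, g]

lemma continuous_g (i : Fin (l + 1)) : Continuous (g i) := by
  refine (PiLp.continuous_toLp 2 _).comp ?_
  exact Continuous.finInsertNth i continuous_fst continuous_snd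

lemma measurePreserving_G (i : Fin (l + 1)) : MeasurePreserving (G i) volume volume := by
  have h1 := PiLp.volume_preserving_ofLp (Fin (l + 1))
  have h2 := volume_preserving_piFinSuccAbove (fun _ : Fin (l + 1) => ℝ) i
  exact h2.comp h1

lemma dist_G (i : Fin (l + 1)) (x y : E (l + 1)) : dist (G i x) (G i y) ≤ dist x y := by
  have h : ∀ j, dist (x j) (y j) ≤ dist x y := by
    intro j
    have := PiLp.norm_apply_le (x - y) j
    rw [dist_eq_norm, dist_eq_norm]
    exact this
  rw [Prod.dist_eq]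
  exact max_le (h i) ((dist_pi_le_iff dist_nonneg).2 fun j => h _)

/-- **From the product form to Kakeya sets.** -/
theorem kakeya_of_cls {δ : ℕ → ℝ} {U : ℕ → ℝ≥0∞} (h : Cls (Fin l) δ U) :
    ∃ K : Set (E (l + 1)), IsKakeya K ∧ ∀ j, volume (thickening (δ j) K) ≤ (l + 1 : ℕ) * U j := by
  obtain ⟨K₀, hK₀, hU⟩ := h
  refine ⟨⋃ i : Fin (l + 1), G i ⁻¹' K₀, ⟨?_, ?_⟩, ?_⟩
  · refine isCompact_iUnion fun i => ?_
    rw [← Set.image_eq_preimage_of_inverse (G_g i) (g_G i)]
    exact hK₀.1.image (continuous_g i)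
  · intro ω hω
    obtain ⟨i, hi⟩ := Finite.exists_max (fun i => |ω i|)
    have hne : ω ≠ 0 := by
      intro h0
      rw [h0, norm_zero] at hω
      exact zero_ne_one hω
    have hpos : 0 < |ω i| := by
      rcases (abs_nonneg (ω i)).lt_or_eq with h1 | h1
      · exact h1
      · exfalso
        apply hne
        ext j
        have := hi j
        rw [← h1] at this
        simpa using abs_nonpos_iff.1 this
    have hle : |ω i| ≤ 1 := by
      have := PiLp.norm_apply_le ω i
      rw [hω] at this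
      exact this
    have hωi : ω i ≠ 0 := abs_pos.1 hpos
    obtain ⟨a, ha⟩ := hK₀.2 (fun j => ω (i.succAbove j) / ω i) (fun j => by
      rw [abs_div]
      exact (div_le_one hpos).2 (hi _))
    rcases lt_or_gt_of_ne hωi with hneg | hpos'
    · refine ⟨g i (-ω i, fun j => a j - ω (i.succAbove j)), fun t ht => ?_⟩
      refine mem_iUnion.2 ⟨i, ?_⟩
      rw [mem_preimage]
      have e1 : |ω i| = - ω i := abs_of_neg hneg
      have h1 := ha ((1 - t) * (-ω i)) ⟨mul_nonneg (by linarith [ht.2]) (by linarith), by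
        have : (1 - t) * (-ω i) ≤ 1 * 1 := mul_le_mul (by linarith [ht.1]) (by linarith) (by linarith) (by norm_num)
        linarith⟩
      convert h1 using 1
      refine Prod.ext ?_ ?_
      · simp [G, g]; ring
      · funext j
        simp [G, g]
        field_simp
        ring
    · refine ⟨g i (0, a), fun t ht => ?_⟩
      refine mem_iUnion.2 ⟨i, ?_⟩
      rw [mem_preimage]
      have e1 : |ω i| = ω i := abs_of_pos hpos'
      have h1 := ha (t * ω i) ⟨mul_nonneg ht.1 hpos'.le, by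
        have : t * ω i ≤ 1 * 1 := mul_le_mul ht.2 (by linarith) hpos'.le (by norm_num)
        linarith⟩
      convert h1 using 1
      refine Prod.ext ?_ ?_
      · simp [G, g]
      · funext j
        simp [G, g]
        field_simp
  · intro j
    have h1 : thickening (δ j) (⋃ i : Fin (l + 1), G i ⁻¹' K₀) ⊆ ⋃ i : Fin (l + 1), G i ⁻¹' (thickening (δ j) K₀) := by
      intro x hx
      rw [mem_thickening_iff] at hx
      obtain ⟨y, hy, hxy⟩ := hx
      obtain ⟨i, hi⟩ := mem_iUnion.1 hy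
      exact mem_iUnion.2 ⟨i, mem_thickening_iff.2 ⟨G i y, hi, (dist_G i x y).trans_lt hxy⟩⟩
    calc volume (thickening (δ j) (⋃ i : Fin (l + 1), G i ⁻¹' K₀))
        ≤ volume (⋃ i : Fin (l + 1), G i ⁻¹' (thickening (δ j) K₀)) := measure_mono h1
      _ ≤ ∑ i : Fin (l + 1), volume (G i ⁻¹' (thickening (δ j) K₀)) := measure_iUnion_fintype_le _ _
      _ ≤ ∑ i : Fin (l + 1), U j := by
          refine Finset.sum_le_sum fun i _ => ?_
          rw [(measurePreserving_G i).measure_preimage isOpen_thickening.measurableSet.nullMeasurableSet]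
          exact hU j
      _ = (l + 1 : ℕ) * U j := by simp

/-- the similarity with ratio `h` used to move a segment to the heights `[0, 1]` -/
noncomputable def Φ (h : ℝ) (q : ℤ) (p : ℝ × (Fin l → ℝ)) : E (l + 1) := g 0 (h • (p + ((q : ℝ), 0)))

lemma dist_g (p q : ℝ × (Fin l → ℝ)) : dist (g 0 p) (g 0 q) ≤ √(l + 1) * dist p q := by
  rw [EuclideanSpace.dist_eq]
  have h1 : ∀ i : Fin (l + 1), dist (g 0 p i) (g 0 q i) ≤ dist p q := by
    intro i
    refine Fin.cases ?_ (fun j => ?_) i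
    · simp [g, Prod.dist_eq]
    · have : dist (p.2 j) (q.2 j) ≤ dist p.2 q.2 := dist_le_pi_dist _ _ _
      simp only [g, Prod.dist_eq]
      simp only [Fin.insertNth_zero', Fin.cons_succ]
      exact this.trans (le_max_right _ _)
  have h2 : ∑ i : Fin (l + 1), dist (g 0 p i) (g 0 q i) ^ 2 ≤ (l + 1) * dist p q ^ 2 := by
    calc ∑ i : Fin (l + 1), dist (g 0 p i) (g 0 q i) ^ 2 ≤ ∑ i : Fin (l + 1), dist p q ^ 2 :=
          Finset.sum_le_sum fun i _ => pow_le_pow_left₀ dist_nonneg (h1 i) 2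
      _ = (l + 1) * dist p q ^ 2 := by simp
  calc √(∑ i : Fin (l + 1), dist (g 0 p i) (g 0 q i) ^ 2) ≤ √((l + 1) * dist p q ^ 2) := Real.sqrt_le_sqrt h2
    _ = √(l + 1) * dist p q := by
        rw [Real.sqrt_mul (by positivity), Real.sqrt_sq dist_nonneg]

lemma measurePreserving_g (i : Fin (l + 1)) : MeasurePreserving (g i) volume volume := by
  have h1 := PiLp.volume_preserving_toLp (Fin (l + 1))
  have h2 := (volume_preserving_piFinSuccAbove (fun _ : Fin (l + 1) => ℝ) i).symm
  exact h1.comp h2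

lemma volume_preimage_Φ (h : ℝ) (hh : 0 < h) (q : ℤ) (S : Set (E (l + 1))) (hS : MeasurableSet S) :
    volume (Φ h q ⁻¹' S) = ENNReal.ofReal |(h ^ Module.finrank ℝ (ℝ × (Fin l → ℝ)))⁻¹| * volume S := by
  have := haar_inst (Fin l)
  have e1 : Φ h q ⁻¹' S = (fun p => p + ((q : ℝ), (0 : Fin l → ℝ))) ⁻¹' ((h • ·) ⁻¹' (g 0 ⁻¹' S)) := rfl
  rw [e1, measure_preimage_add_right, Measure.addHaar_preimage_smul volume hh.ne',
    (measurePreserving_g 0).measure_preimage hS.nullMeasurableSet]

/-- **From Kakeya sets to the product form.** -/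
theorem cls_of_kakeya {K : Set (E (l + 1))} (hK : IsKakeya K) (δ : ℕ → ℝ) :
    ∃ C : ℝ≥0∞, C ≠ 0 ∧ C ≠ ∞ ∧ Cls (Fin l) δ (fun j => C * volume (thickening (δ j) K)) := by
  obtain ⟨R, hR0, hR⟩ : ∃ R : ℝ, 0 ≤ R ∧ ∀ x ∈ K, ‖x‖ ≤ R := by
    obtain ⟨R, hR⟩ := hK.1.isBounded.subset_closedBall 0
    refine ⟨max R 0, le_max_right _ _, fun x hx => ?_⟩
    have := hR hx
    rw [mem_closedBall, dist_zero_right] at this
    exact this.trans (le_max_left _ _)
  obtain ⟨s, hs⟩ : ∃ s : ℝ, s = √((l : ℝ) + 1) := ⟨_, rfl⟩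
  have hs1 : 1 ≤ s := by
    rw [hs, Real.one_le_sqrt]
    have : (0:ℝ) ≤ l := Nat.cast_nonneg l
    linarith
  obtain ⟨h, hh⟩ : ∃ h : ℝ, h = 1 / (2 * s) := ⟨_, rfl⟩
  have hpos : 0 < h := by rw [hh]; positivity
  have hhs : h * s = 1 / 2 := by rw [hh]; field_simp
  obtain ⟨Q, hQ⟩ : ∃ Q : ℕ, R / h + 1 ≤ Q := exists_nat_ge _
  obtain ⟨c, hc⟩ : ∃ c : ℝ≥0∞, c = ENNReal.ofReal |(h ^ Module.finrank ℝ (ℝ × (Fin l → ℝ)))⁻¹| := ⟨_, rfl⟩
  have hc0 : c ≠ 0 := by
    rw [hc]
    have : 0 < |(h ^ Module.finrank ℝ (ℝ × (Fin l → ℝ)))⁻¹| := by positivity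
    exact (ENNReal.ofReal_pos.2 this).ne'
  have hctop : c ≠ ∞ := by rw [hc]; exact ENNReal.ofReal_ne_top
  obtain ⟨I, hI⟩ : ∃ I : Finset ℤ, I = Finset.Icc (-(Q : ℤ)) Q := ⟨_, rfl⟩
  have hIcard : (I.card : ℝ≥0∞) ≠ 0 := by
    have : I.Nonempty := ⟨0, by rw [hI]; simp⟩
    simpa using this.ne_empty
  refine ⟨I.card * c, mul_ne_zero hIcard hc0, ENNReal.mul_ne_top (ENNReal.natCast_ne_top _) hctop,
    ⋃ q ∈ I, Φ h q ⁻¹' K, ⟨?_, ?_⟩, ?_⟩
  · refine I.isCompact_biUnion fun q _ => ?_
    -- the preimage is the image under the inverse similarity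
    have e1 : Φ h q ⁻¹' K = (fun x : E (l + 1) => h⁻¹ • G 0 x - ((q : ℝ), (0 : Fin l → ℝ))) '' K := by
      refine (congrFun (Set.image_eq_preimage_of_inverse
        (f := fun x : E (l + 1) => h⁻¹ • G 0 x - ((q : ℝ), (0 : Fin l → ℝ))) (g := Φ h q) ?_ ?_) K).symm
      · intro x
        simp only [Φ, sub_add_cancel]
        rw [smul_smul, mul_inv_cancel₀ hpos.ne', one_smul, g_G]
      · intro p
        simp only [Φ]
        rw [G_g, smul_smul, inv_mul_cancel₀ hpos.ne', one_smul, add_sub_cancel_right]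
    rw [e1]
    refine hK.1.image ?_
    have hG : Continuous (G (0 : Fin (l + 1))) := by
      have : LipschitzWith 1 (G (0 : Fin (l + 1))) := LipschitzWith.of_dist_le_mul fun x y => by
        simpa using dist_G 0 x y
      exact this.continuous
    exact (hG.const_smul h⁻¹).sub continuous_const
  · intro v hv
    obtain ⟨x, hx⟩ : ∃ x : E (l + 1), x = g 0 (1, v) := ⟨_, rfl⟩
    have hx0 : x 0 = 1 := by rw [hx]; simp [g]
    have hxs : ∀ i : Fin l, x i.succ = v i := by
      intro i
      rw [hx]; simp [g]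
    have hL1 : 1 ≤ ‖x‖ := by
      have := PiLp.norm_apply_le x 0
      rw [hx0] at this
      simpa using this
    have hLs : ‖x‖ ≤ s := by
      have h1 := dist_g (1, v) (0 : ℝ × (Fin l → ℝ))
      have h2 : g (0 : Fin (l + 1)) (0 : ℝ × (Fin l → ℝ)) = 0 := by
        ext i
        refine Fin.cases ?_ (fun j => ?_) i <;> simp [g]
      rw [h2, dist_zero_right, dist_zero_right, ← hx, ← hs] at h1
      refine h1.trans ?_
      have h3 : ‖((1:ℝ), v)‖ ≤ 1 := by
        rw [Prod.norm_def]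
        refine max_le (by simp) ((pi_norm_le_iff_of_nonneg zero_le_one).2 fun i => hv i)
      nlinarith
    have hLpos : 0 < ‖x‖ := by linarith
    obtain ⟨a, ha⟩ := hK.2 (‖x‖⁻¹ • x) (by
      rw [norm_smul, norm_inv, norm_norm, inv_mul_cancel₀ hLpos.ne'])
    have ha0 : |a 0| ≤ R := by
      have h1 := ha 0 ⟨le_rfl, zero_le_one⟩
      rw [zero_smul, add_zero] at h1
      exact (PiLp.norm_apply_le a 0).trans (hR a h1)
    obtain ⟨q, hq⟩ : ∃ q : ℤ, q = ⌈a 0 / h⌉ := ⟨_, rfl⟩
    have hq1 : a 0 ≤ h * q := by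
      have := Int.le_ceil (a 0 / h)
      rw [← hq, div_le_iff₀ hpos] at this
      linarith
    have hq2 : h * q < a 0 + h := by
      have := Int.ceil_lt_add_one (a 0 / h)
      rw [← hq] at this
      have h1 : (q : ℝ) * h < (a 0 / h + 1) * h := mul_lt_mul_of_pos_right this hpos
      have h2 : (a 0 / h + 1) * h = a 0 + h := by field_simp
      linarith
    have hqI : q ∈ I := by
      rw [hI, Finset.mem_Icc]
      have h0 : R / h * h = R := by field_simp
      have ha1 := abs_le.1 ha0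
      have h3 : (R / h + 1) * h ≤ Q * h := mul_le_mul_of_nonneg_right hQ hpos.le
      have h4 : (q : ℝ) ≤ Q := by
        by_contra hcon
        push Not at hcon
        have : (Q : ℝ) * h < q * h := mul_lt_mul_of_pos_right hcon hpos
        nlinarith
      have h5 : -(Q : ℝ) ≤ q := by
        by_contra hcon
        push Not at hcon
        have : (q : ℝ) * h < (-Q) * h := mul_lt_mul_of_pos_right hcon hpos
        nlinarith
      constructor
      · exact_mod_cast h5
      · exact_mod_cast h4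
    refine ⟨fun i => (a i.succ + (h * q - a 0) * v i) / h, fun u hu => ?_⟩
    refine mem_iUnion₂.2 ⟨q, hqI, ?_⟩
    rw [mem_preimage]
    have ht := ha (‖x‖ * (h * (u + q) - a 0)) ⟨?_, ?_⟩
    · convert ht using 1
      ext i
      refine Fin.cases ?_ (fun j => ?_) i
      · simp [Φ, g, hx0]
        field_simp
        ring
      · simp [Φ, g, hxs]
        field_simp
        ring
    · refine mul_nonneg hLpos.le ?_
      have : 0 ≤ h * u := mul_nonneg hpos.le hu.1
      nlinarith
    · have h1 : h * (u + q) - a 0 ≤ 2 * h := by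
        have : h * u ≤ h * 1 := mul_le_mul_of_nonneg_left hu.2 hpos.le
        nlinarith
      have h2 : 0 ≤ h * (u + q) - a 0 := by
        have : 0 ≤ h * u := mul_nonneg hpos.le hu.1
        nlinarith
      calc ‖x‖ * (h * (u + q) - a 0) ≤ s * (2 * h) := mul_le_mul hLs h1 h2 (by linarith)
        _ = 1 := by linarith
  · intro j
    have h1 : thickening (δ j) (⋃ q ∈ I, Φ h q ⁻¹' K) ⊆ ⋃ q ∈ I, Φ h q ⁻¹' (thickening (δ j) K) := by
      intro p hp
      rw [mem_thickening_iff] at hp
      obtain ⟨p', hp', hpp⟩ := hp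
      obtain ⟨q, hq, hqK⟩ := mem_iUnion₂.1 hp'
      refine mem_iUnion₂.2 ⟨q, hq, mem_thickening_iff.2 ⟨Φ h q p', hqK, ?_⟩⟩
      have h2 : dist (Φ h q p) (Φ h q p') ≤ dist p p' := by
        refine (dist_g _ _).trans ?_
        rw [dist_smul₀, dist_add_right, ← hs, Real.norm_of_nonneg hpos.le]
        have : 0 ≤ dist p p' := dist_nonneg
        nlinarith
      exact h2.trans_lt hpp
    calc volume (thickening (δ j) (⋃ q ∈ I, Φ h q ⁻¹' K))
        ≤ volume (⋃ q ∈ I, Φ h q ⁻¹' (thickening (δ j) K)) := measure_mono h1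
      _ ≤ ∑ q ∈ I, volume (Φ h q ⁻¹' (thickening (δ j) K)) := measure_biUnion_finset_le _ _
      _ = ∑ q ∈ I, c * volume (thickening (δ j) K) := by
          refine Finset.sum_congr rfl fun q _ => ?_
          rw [volume_preimage_Φ h hpos q _ isOpen_thickening.measurableSet, hc]
      _ = I.card * c * volume (thickening (δ j) K) := by
          rw [Finset.sum_const, nsmul_eq_mul, mul_assoc]

end Pool.Agent.H53.KD
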