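import Pool.Agent.H53.KD.Dim

set_option autoImplicit false

/-! # MP_b1773a_an: amplification in the dimension for the Kakeya problem (Q2)

`IsKakeya K`: `K ⊆ ℝ^n` is compact and contains a unit segment in every direction.
`lowerMinkowski K = n - limsup_{δ → 0+} log |N_δ K| / log δ`.
Both are defined in `Pool.Agent.H53.KD.Defs`.

(1) For every Kakeya set `K ⊆ ℝ^n` and every `m` there is a Kakeya set `K' ⊆ ℝ^(m (n-1) + 1)` with
`dim K' - 1 ≤ m (dim K - 1)`.

(2) Let `K ⊆ ℝ^n`, `n ≥ 2`, be a Kakeya set with `dim K ≤ d`. For every `η > 0` there are, in all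
sufficiently high dimensions `N`, Kakeya sets of dimension at most `((d - 1) / (n - 1) + η) N`.

(3) Suppose that for every `η > 0` there are arbitrarily large `N` such that all Kakeya sets in `ℝ^N` have
dimension at least `(c - η) N`. Then for EVERY `n ≥ 2` all Kakeya sets in `ℝ^n` have dimension at least
`1 + c (n - 1)`.

(4) Hence the following are equivalent: Q2 holds for all `n ≥ 2`; Q2 holds for all `n ≥ 4`; Q2 holds for
infinitely many `n`; for every `η > 0` there are arbitrarily large `n` such that all Kakeya sets in `ℝ^n` have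
dimension at least `(1 - η) n`; it is not the case that for some `c > 0` there are Kakeya sets of dimension at
most `(1 - c) n` in `ℝ^n` for all large `n`. -/

namespace Pool.Agent.H53.KD.HighDimensionsDecide

open Filter Pool.Agent.H53.KD

/-- Q2 in dimension `n`: every Kakeya set in `ℝ^n` has lower Minkowski dimension `n`. -/
def Q2 (n : ℕ) : Prop := ∀ K : Set (E n), IsKakeya K → lowerMinkowski K = (n : EReal)

theorem growth (n : ℕ) (hn : 2 ≤ n) (K : Set (E n)) (hK : IsKakeya K) (d η : ℝ)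
    (hd : lowerMinkowski K ≤ (d : EReal)) (hη : 0 < η) :
    ∀ᶠ N : ℕ in atTop, ∃ K' : Set (E N), IsKakeya K' ∧
      lowerMinkowski K' ≤ ((((d - 1) / (n - 1) + η) * N : ℝ) : EReal) := by
  obtain ⟨k, rfl⟩ : ∃ k, n = k + 1 := ⟨n - 1, by omega⟩
  have hk : 1 ≤ k := by omega
  have hk0 : (0:ℝ) < k := by exact_mod_cast hk
  obtain ⟨B, hB⟩ : ∃ B : ℝ, B = (1 + |(d - 1) / k| + |(k : ℝ) + 1 - d|) / η := ⟨_, rfl⟩
  filter_upwards [eventually_ge_atTop (max 1 ⌈B⌉₊)] with N hN
  have hN1 : 1 ≤ N := (le_max_left _ _).trans hN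
  have hNB : B ≤ N := (Nat.le_ceil B).trans (by exact_mod_cast (le_max_right _ _).trans hN)
  obtain ⟨m, hm⟩ : ∃ m, m = (N - 1) / k := ⟨_, rfl⟩
  obtain ⟨r, hr⟩ : ∃ r, r = (N - 1) % k := ⟨_, rfl⟩
  have hmr : m * k + r + 1 = N := by
    have := Nat.div_add_mod (N - 1) k
    rw [hm, hr, Nat.mul_comm]
    omega
  have hrk : r < k := by rw [hr]; exact Nat.mod_lt _ hk
  obtain ⟨K', hK', hγ⟩ := exists_power hK m r
  have hd' := (lowerMinkowski_le_iff K d).1 hd
  have h1 := hγ _ hd'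
  have h2 : lowerMinkowski K' ≤ ((((m * k + r + 1 : ℕ) : ℝ) - m * (((k + 1 : ℕ) : ℝ) - d) : ℝ) : EReal) := by
    rw [lowerMinkowski_le_iff]
    convert h1 using 2
    ring
  have h3 : ((((m * k + r + 1 : ℕ) : ℝ) - m * (((k + 1 : ℕ) : ℝ) - d) : ℝ)) ≤
      ((d - 1) / (((k + 1 : ℕ) : ℝ) - 1) + η) * N := by
    have e1 : (((k + 1 : ℕ) : ℝ) - 1) = k := by push_cast; ring
    rw [e1, hmr]
    obtain ⟨a, ha⟩ : ∃ a : ℝ, a = (d - 1) / k := ⟨_, rfl⟩
    have hak : a * k = d - 1 := by rw [ha]; field_simp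
    have hNr : (N : ℝ) = m * k + r + 1 := by exact_mod_cast hmr.symm
    have hηN : 1 + |a| + |(k : ℝ) + 1 - d| ≤ η * N := by
      have : η * B ≤ η * N := mul_le_mul_of_nonneg_left hNB hη.le
      have h4 : η * B = 1 + |a| + |(k : ℝ) + 1 - d| := by rw [hB, ha]; field_simp
      linarith
    have hmk : (m : ℝ) * k = N - r - 1 := by linarith
    have hr0 : (0:ℝ) ≤ r := Nat.cast_nonneg r
    have hrk' : (r : ℝ) ≤ k := by exact_mod_cast hrk.le
    rw [← ha]
    have e2 : (N : ℝ) - m * (((k + 1 : ℕ) : ℝ) - d) = a * N + (1 - a) * (r + 1) := by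
      have : (m : ℝ) * (((k + 1 : ℕ) : ℝ) - d) = m * k * (1 - a) := by
        push_cast
        linear_combination (m : ℝ) * hak
      rw [this, hmk]
      ring
    rw [e2, add_mul]
    have h5 : (1 - a) * r ≤ |(k : ℝ) + 1 - d| := by
      have e3 : (k : ℝ) + 1 - d = (1 - a) * k := by linear_combination hak
      rw [e3, abs_mul, abs_of_pos hk0]
      calc (1 - a) * r ≤ |1 - a| * r := mul_le_mul_of_nonneg_right (le_abs_self _) hr0
        _ ≤ |1 - a| * k := mul_le_mul_of_nonneg_left hrk' (abs_nonneg _)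
    have h6 : (1 - a) ≤ 1 + |a| := by linarith [neg_abs_le a]
    nlinarith
  have h7 : lowerMinkowski K' ≤ ((((d - 1) / (((k + 1 : ℕ) : ℝ) - 1) + η) * N : ℝ) : EReal) :=
    h2.trans (EReal.coe_le_coe_iff.2 h3)
  clear h1 h2 hγ
  subst hmr
  exact ⟨K', hK', h7⟩

theorem lower (c : ℝ) (hc : ∀ η : ℝ, 0 < η → ∃ᶠ N : ℕ in atTop, ∀ K : Set (E N), IsKakeya K →
      (((c - η) * N : ℝ) : EReal) ≤ lowerMinkowski K)
    (n : ℕ) (hn : 2 ≤ n) (K : Set (E n)) (hK : IsKakeya K) :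
    ((1 + c * (n - 1) : ℝ) : EReal) ≤ lowerMinkowski K := by
  by_contra hcon
  push Not at hcon
  obtain ⟨d, hd1, hd2⟩ := EReal.lt_iff_exists_real_btwn.1 hcon
  have hd2' : d < 1 + c * (n - 1) := by exact_mod_cast hd2
  have hn0 : (0:ℝ) < (n : ℝ) - 1 := by
    have : (2:ℝ) ≤ n := by exact_mod_cast hn
    linarith
  have h1 : (d - 1) / ((n : ℝ) - 1) < c := by
    rw [div_lt_iff₀ hn0]
    linarith
  obtain ⟨η, hη⟩ : ∃ η : ℝ, η = (c - (d - 1) / ((n : ℝ) - 1)) / 3 := ⟨_, rfl⟩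
  have hη0 : 0 < η := by rw [hη]; linarith
  have h2 := growth n hn K hK d η hd1.le hη0
  obtain ⟨N, hN1, hN2, hN3⟩ := ((hc η hη0).and_eventually (h2.and (eventually_ge_atTop 1))).exists
  obtain ⟨K', hK', h3⟩ := hN2
  have h4 := (hN1 K' hK').trans h3
  have h5 : (c - η) * N ≤ ((d - 1) / ((n : ℝ) - 1) + η) * N := by exact_mod_cast h4
  have hN0 : (0:ℝ) < N := by exact_mod_cast hN3
  have h6 := le_of_mul_le_mul_right h5 hN0
  linarith

theorem result :
    -- (1) powers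
    (∀ (n m : ℕ), 1 ≤ n → ∀ K : Set (E n), IsKakeya K →
      ∃ K' : Set (E (m * (n - 1) + 1)), IsKakeya K' ∧
        ∀ d : ℝ, lowerMinkowski K ≤ (d : EReal) → lowerMinkowski K' ≤ ((1 + m * (d - 1) : ℝ) : EReal)) ∧
    -- (2) all high dimensions
    (∀ n : ℕ, 2 ≤ n → ∀ K : Set (E n), IsKakeya K → ∀ d η : ℝ, lowerMinkowski K ≤ (d : EReal) → 0 < η →
      ∀ᶠ N : ℕ in atTop, ∃ K' : Set (E N), IsKakeya K' ∧
        lowerMinkowski K' ≤ ((((d - 1) / (n - 1) + η) * N : ℝ) : EReal)) ∧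
    -- (3) bounds in high dimensions give bounds in every dimension
    (∀ c : ℝ, (∀ η : ℝ, 0 < η → ∃ᶠ N : ℕ in atTop, ∀ K : Set (E N), IsKakeya K →
        (((c - η) * N : ℝ) : EReal) ≤ lowerMinkowski K) →
      ∀ n : ℕ, 2 ≤ n → ∀ K : Set (E n), IsKakeya K → ((1 + c * (n - 1) : ℝ) : EReal) ≤ lowerMinkowski K) ∧
    -- (4) equivalent forms of Q2 in all dimensions
    [∀ n : ℕ, 2 ≤ n → Q2 n,
      ∀ n : ℕ, 4 ≤ n → Q2 n,
      ∃ᶠ n : ℕ in atTop, Q2 n,
      ∀ η : ℝ, 0 < η → ∃ᶠ n : ℕ in atTop, ∀ K : Set (E n), IsKakeya K →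
        (((1 - η) * n : ℝ) : EReal) ≤ lowerMinkowski K,
      ¬ ∃ c : ℝ, 0 < c ∧ ∀ᶠ n : ℕ in atTop, ∃ K : Set (E n), IsKakeya K ∧
        lowerMinkowski K ≤ (((1 - c) * n : ℝ) : EReal)].TFAE := by
  refine ⟨?_, fun n hn K hK d η hd hη => growth n hn K hK d η hd hη, fun c hc n hn K hK => lower c hc n hn K hK, ?_⟩
  · intro n m hn K hK
    obtain ⟨k, rfl⟩ : ∃ k, n = k + 1 := ⟨n - 1, by omega⟩
    obtain ⟨K', hK', hγ⟩ := exists_power hK m 0
    refine ⟨K', hK', fun d hd => ?_⟩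
    have h1 := hγ _ ((lowerMinkowski_le_iff K d).1 hd)
    change lowerMinkowski (n := m * k + 0 + 1) K' ≤ _
    rw [lowerMinkowski_le_iff]
    convert h1 using 2
    push_cast
    ring
  · tfae_have 1 → 2 := fun h n hn => h n (by omega)
    tfae_have 2 → 3 := fun h => (Filter.eventually_atTop.2 ⟨4, h⟩).frequently
    tfae_have 3 → 4 := by
      intro h η hη
      refine h.mono fun n hn K hK => ?_
      rw [hn K hK]
      have e : ((n : ℕ) : EReal) = ((n : ℝ) : EReal) := by norm_cast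
      rw [e]
      refine EReal.coe_le_coe_iff.2 ?_
      have : (0:ℝ) ≤ n := Nat.cast_nonneg n
      nlinarith
    tfae_have 4 → 1 := by
      intro h n hn K hK
      refine le_antisymm (lowerMinkowski_le hK) ?_
      have h1 := lower 1 h n hn K hK
      have e : ((1 + 1 * ((n : ℝ) - 1) : ℝ) : EReal) = (n : EReal) := by
        have : (1 + 1 * ((n : ℝ) - 1) : ℝ) = n := by ring
        rw [this]
        norm_cast
      rwa [e] at h1
    tfae_have 4 → 5 := by
      rintro h ⟨c, hc, h1⟩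
      obtain ⟨n, h2, ⟨K, hK, h3⟩, hn⟩ := ((h (c / 2) (by positivity)).and_eventually
        (h1.and (eventually_ge_atTop 1))).exists
      have h4 := (h2 K hK).trans h3
      have h5 : (1 - c / 2) * (n : ℝ) ≤ (1 - c) * n := by exact_mod_cast h4
      have hn0 : (0:ℝ) < n := by exact_mod_cast hn
      have h6 := le_of_mul_le_mul_right h5 hn0
      linarith
    tfae_have 5 → 1 := by
      intro h n hn K hK
      refine le_antisymm (lowerMinkowski_le hK) ?_
      by_contra hcon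
      push Not at hcon
      have e : ((n : ℕ) : EReal) = ((n : ℝ) : EReal) := by norm_cast
      rw [e] at hcon
      obtain ⟨d, hd1, hd2⟩ := EReal.lt_iff_exists_real_btwn.1 hcon
      have hd2' : d < n := by exact_mod_cast hd2
      have hn0 : (0:ℝ) < (n : ℝ) - 1 := by
        have : (2:ℝ) ≤ n := by exact_mod_cast hn
        linarith
      have h1 : (d - 1) / ((n : ℝ) - 1) < 1 := by
        rw [div_lt_one hn0]
        linarith
      refine h ⟨(1 - (d - 1) / ((n : ℝ) - 1)) / 2, by linarith, ?_⟩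
      filter_upwards [growth n hn K hK d ((1 - (d - 1) / ((n : ℝ) - 1)) / 2) hd1.le (by linarith)] with N hN
      obtain ⟨K', hK', h2⟩ := hN
      refine ⟨K', hK', h2.trans (EReal.coe_le_coe_iff.2 (le_of_eq ?_))⟩
      ring
    tfae_finish

end Pool.Agent.H53.KD.HighDimensionsDecide
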